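import Mathlib
import Pool.Agent.Q94.CubeSub

/-! # Embedding subgroup lattices of abelian groups into subspace lattices

There is a finite abelian group `A` whose subgroup lattice embeds into no subspace lattice of a
vector space over a division ring.  More precisely, for a nontrivial abelian group `B` the lattice
`Sub(B³)` embeds into the subspace lattice of some vector space over a division ring if and only
if `B` is an elementary abelian `p`-group for some prime `p`. -/

namespace Pool.Agent.Results.MP_0a2dc5_al.CubeCriterion

open Pool.Agent.Q94.CubeSub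

theorem latticeHom_of_orderIso {α β : Type*} [Lattice α] [Lattice β] (e : α ≃o β) :
    ∃ φ : LatticeHom α β, Function.Injective φ :=
  ⟨⟨⟨e, e.map_sup⟩, e.map_inf⟩, e.injective⟩

/-- **Answer to Q1 and Q2: yes.**  The first part gives a finite abelian group `A` whose subgroup
lattice embeds into no `Sub_D(V)`; the second and third part are the two directions of the
criterion for the groups `A = B³`. -/
theorem result :
    (∃ (A : Type) (_ : AddCommGroup A) (_ : Finite A),
      ∀ (D : Type*) (_ : DivisionRing D) (V : Type*) (_ : AddCommGroup V) (_ : Module D V)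
        (φ : LatticeHom (AddSubgroup A) (Submodule D V)), ¬ Function.Injective φ) ∧
    ∀ (B : Type*) (_ : AddCommGroup B) (_ : Nontrivial B),
      (∀ (D : Type*) (_ : DivisionRing D) (V : Type*) (_ : AddCommGroup V) (_ : Module D V)
        (φ : LatticeHom (AddSubgroup (Fin 3 → B)) (Submodule D V)), Function.Injective φ →
          ∃ p : ℕ, p.Prime ∧ ∀ b : B, p • b = 0) ∧
      ((∃ p : ℕ, p.Prime ∧ ∀ b : B, p • b = 0) →
        ∃ (D : Type) (_ : Field D) (_ : Module D (Fin 3 → B))
          (φ : LatticeHom (AddSubgroup (Fin 3 → B)) (Submodule D (Fin 3 → B))),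
          Function.Injective φ) := by
  refine ⟨⟨Fin 3 → ZMod 4, inferInstance, inferInstance, ?_⟩, ?_⟩
  · intro D _ V _ _ φ hφ
    have : Nontrivial (ZMod 4) := ⟨⟨0, 1, by decide⟩⟩
    obtain ⟨p, hp, h⟩ := elementary_of_embedding φ hφ
    have h1 := h 1
    rw [nsmul_eq_mul, mul_one, ZMod.natCast_eq_zero_iff] at h1
    have h2 := Nat.le_of_dvd hp.pos h1
    rcases hp.eq_one_or_self_of_dvd 2 (dvd_trans (by norm_num) h1) with h3 | h3 <;> omega
  · intro B _ _
    refine ⟨fun D _ V _ _ φ hφ => elementary_of_embedding φ hφ, ?_⟩
    rintro ⟨p, hp, h⟩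
    have : Fact p.Prime := ⟨hp⟩
    have h' : ∀ x : Fin 3 → B, p • x = 0 := fun x => funext fun i => h (x i)
    exact ⟨ZMod p, inferInstance, AddCommGroup.zmodModule h',
      latticeHom_of_orderIso (@AddSubgroup.toZModSubmodule p (Fin 3 → B) _
        (AddCommGroup.zmodModule h'))⟩

end Pool.Agent.Results.MP_0a2dc5_al.CubeCriterion
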